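import Pool.Agent.N236.RT.Stm

/-!
# Project RT (helper236), part AUX: the auxiliary polynomial (helper297)
-/

set_option autoImplicit false

namespace Pool.Agent.N297.RT

open MvPolynomial Module Pool.Agent.N236.RT

/-- the exponents of the monomials in the box -/
noncomputable def mo (A B : ℕ) (i : Fin ((A + 1) * (B + 1))) : Fin 2 →₀ ℕ :=
  Finsupp.single 0 ((finProdFinEquiv.symm i).1 : ℕ) +
    Finsupp.single 1 ((finProdFinEquiv.symm i).2 : ℕ)

theorem mo_zero (A B : ℕ) (i : Fin ((A + 1) * (B + 1))) :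
    mo A B i 0 = ((finProdFinEquiv.symm i).1 : ℕ) := by
  simp [mo]

theorem mo_one (A B : ℕ) (i : Fin ((A + 1) * (B + 1))) :
    mo A B i 1 = ((finProdFinEquiv.symm i).2 : ℕ) := by
  simp [mo]

theorem mo_inj (A B : ℕ) : Function.Injective (mo A B) := by
  intro i j h
  have h0 : mo A B i 0 = mo A B j 0 := by rw [h]
  have h1 : mo A B i 1 = mo A B j 1 := by rw [h]
  rw [mo_zero, mo_zero] at h0
  rw [mo_one, mo_one] at h1
  apply finProdFinEquiv.symm.injective
  exact Prod.ext (Fin.ext h0) (Fin.ext h1)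

theorem mo_le (A B : ℕ) (i : Fin ((A + 1) * (B + 1))) : mo A B i 0 ≤ A ∧ mo A B i 1 ≤ B := by
  rw [mo_zero, mo_one]
  exact ⟨Nat.lt_succ_iff.1 (Fin.isLt _), Nat.lt_succ_iff.1 (Fin.isLt _)⟩

theorem exists_mo {A B : ℕ} {m : Fin 2 →₀ ℕ} (h : m 0 ≤ A ∧ m 1 ≤ B) : ∃ i, mo A B i = m := by
  refine ⟨finProdFinEquiv (⟨m 0, Nat.lt_succ_iff.2 h.1⟩, ⟨m 1, Nat.lt_succ_iff.2 h.2⟩), ?_⟩
  ext k
  fin_cases k
  · show mo A B _ 0 = m 0
    rw [mo_zero, Equiv.symm_apply_apply]
  · show mo A B _ 1 = m 1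
    rw [mo_one, Equiv.symm_apply_apply]

/-- the coefficients of the linear forms -/
noncomputable def aa {S : Type*} [CommSemiring S] (A B : ℕ) (u v : S) (a b : ℕ)
    (i : Fin ((A + 1) * (B + 1))) : S :=
  (((mo A B i 0).choose a * (mo A B i 1).choose b : ℕ) : S) *
    (u ^ (mo A B i 0 - a) * v ^ (mo A B i 1 - b))

theorem ev_D {R S : Type*} [CommRing R] [CommRing S] [Algebra R S] {A B : ℕ} {P : Pol R}
    (hP : Bd A B P) (u v : S) (a b : ℕ) :
    ev u v (D a b P) = ∑ i, coeff (mo A B i) P • aa A B u v a b i := by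
  classical
  have h1 : D a b P = ∑ m ∈ Finset.univ.image (mo A B),
      monomial (Finsupp.single 0 (m 0 - a) + Finsupp.single 1 (m 1 - b))
        ((((m 0).choose a * (m 1).choose b : ℕ) : R) * coeff m P) := by
    unfold D
    refine Finset.sum_subset ?_ ?_
    · intro m hm
      obtain ⟨i, hi⟩ := exists_mo (hP m hm)
      exact Finset.mem_image.2 ⟨i, Finset.mem_univ _, hi⟩
    · intro m _ hm
      rw [notMem_support_iff.1 hm, mul_zero, monomial_zero]
  rw [h1, Finset.sum_image (fun i _ j _ h => mo_inj A B h)]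
  unfold ev
  rw [map_sum]
  refine Finset.sum_congr rfl fun i _ => ?_
  rw [aeval_monomial, aa]
  rw [Finsupp.prod_add_index' (by simp) (by intros; rw [pow_add]), Finsupp.prod_single_index
    (by simp), Finsupp.prod_single_index (by simp)]
  simp only [Matrix.cons_val_zero, Matrix.cons_val_one, map_mul, map_natCast, Algebra.smul_def]
  ring

/-- the polynomial with given coefficients -/
noncomputable def bk {R : Type*} [CommSemiring R] (A B : ℕ) (v : Fin ((A + 1) * (B + 1)) → R) :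
    Pol R := ∑ i, monomial (mo A B i) (v i)

theorem coeff_bk {R : Type*} [CommSemiring R] (A B : ℕ) (v : Fin ((A + 1) * (B + 1)) → R)
    (i : Fin ((A + 1) * (B + 1))) : coeff (mo A B i) (bk A B v) = v i := by
  classical
  unfold bk
  rw [coeff_sum, Finset.sum_eq_single i]
  · rw [coeff_monomial, if_pos rfl]
  · intro j _ hj
    rw [coeff_monomial, if_neg fun h => hj (mo_inj A B h)]
  · intro h
    exact absurd (Finset.mem_univ i) h

theorem coeff_bk' {R : Type*} [CommSemiring R] (A B : ℕ) (v : Fin ((A + 1) * (B + 1)) → R)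
    {m : Fin 2 →₀ ℕ} (h : ∀ i, mo A B i ≠ m) : coeff m (bk A B v) = 0 := by
  classical
  unfold bk
  rw [coeff_sum]
  refine Finset.sum_eq_zero fun i _ => ?_
  rw [coeff_monomial, if_neg (h i)]

theorem bd_bk {R : Type*} [CommSemiring R] (A B : ℕ) (v : Fin ((A + 1) * (B + 1)) → R) :
    Bd A B (bk A B v) := by
  intro m hm
  by_contra hcon
  have h : ∀ i, mo A B i ≠ m := by
    rintro i rfl
    exact hcon (mo_le A B i)
  exact (mem_support_iff.1 hm) (coeff_bk' A B v h)

theorem bk_coeff {R : Type*} [CommSemiring R] {A B : ℕ} {P : Pol R} (hP : Bd A B P) :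
    bk A B (fun i => coeff (mo A B i) P) = P := by
  ext m
  by_cases h : ∃ i, mo A B i = m
  · obtain ⟨i, rfl⟩ := h
    rw [coeff_bk]
  · push Not at h
    rw [coeff_bk' A B _ h]
    by_contra hcon
    obtain ⟨i, hi⟩ := exists_mo (hP m (mem_support_iff.2 (Ne.symm hcon)))
    exact h i hi

/-- `bk` as a linear map -/
noncomputable def bkl (A B : ℕ) : (Fin ((A + 1) * (B + 1)) → ℚ) →ₗ[ℚ] Pol ℚ where
  toFun := bk A B
  map_add' v w := by
    unfold bk
    rw [← Finset.sum_add_distrib]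
    exact Finset.sum_congr rfl fun i _ => by rw [Pi.add_apply, map_add]
  map_smul' c v := by
    unfold bk
    rw [RingHom.id_apply, Finset.smul_sum]
    exact Finset.sum_congr rfl fun i _ => by rw [Pi.smul_apply, map_smul]

section Num

theorem num {n R : ℕ} {κ h Z M : ℝ} (hn : 1 ≤ n) (hRn : R ≤ n) (hR : (R : ℝ) ≤ κ * n)
    (hκ0 : 0 < κ) (hκ : κ ≤ 1 / 2) (hh : 0 ≤ h) (hZ : Z = 2 * κ * (2 * Real.log (2 * n) + h))
    (hM : Real.exp Z ≤ M) (hM1 : 1 ≤ M) :
    (R.factorial : ℝ) * Real.exp (R * h) * (2 * n * M + 1) ^ R < (M + 1) ^ n := by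
  have hn1 : (1 : ℝ) ≤ n := by exact_mod_cast hn
  have hl2n : 0 ≤ Real.log (2 * n) := Real.log_nonneg (by linarith)
  have hlM : 0 < Real.log (M + 1) := Real.log_pos (by linarith)
  have hZM : Z < Real.log (M + 1) := by
    rw [Real.lt_log_iff_exp_lt (by linarith)]
    linarith
  have e1 : (R.factorial : ℝ) ≤ Real.exp (R * Real.log (2 * n)) := by
    rw [Real.exp_nat_mul, Real.exp_log (by positivity)]
    have h1 : (R.factorial : ℝ) ≤ (n : ℝ) ^ R := by
      have h2 : R.factorial ≤ R ^ R := Nat.factorial_le_pow R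
      have h3 : R ^ R ≤ n ^ R := Nat.pow_le_pow_left hRn R
      exact_mod_cast h2.trans h3
    refine h1.trans ?_
    gcongr
    linarith
  have e2 : (2 * n * M + 1) ^ R ≤ Real.exp (R * (Real.log (2 * n) + Real.log (M + 1))) := by
    rw [Real.exp_nat_mul, Real.exp_add, Real.exp_log (by positivity),
      Real.exp_log (by linarith)]
    gcongr
    nlinarith
  have hq : 0 ≤ 2 * Real.log (2 * n) + h + Real.log (M + 1) := by linarith
  calc (R.factorial : ℝ) * Real.exp (R * h) * (2 * n * M + 1) ^ R ≤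
      Real.exp (R * Real.log (2 * n)) * Real.exp (R * h) *
        Real.exp (R * (Real.log (2 * n) + Real.log (M + 1))) := by gcongr
    _ = Real.exp (R * (2 * Real.log (2 * n) + h + Real.log (M + 1))) := by
        rw [← Real.exp_add, ← Real.exp_add]
        congr 1
        ring
    _ ≤ Real.exp (κ * n * (2 * Real.log (2 * n) + h + Real.log (M + 1))) := by gcongr
    _ < Real.exp (n * Real.log (M + 1)) := by
        apply Real.exp_lt_exp.2
        have h1 : κ * (2 * Real.log (2 * n) + h + Real.log (M + 1)) < Real.log (M + 1) := by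
          have h2 : κ * Real.log (M + 1) ≤ 1 / 2 * Real.log (M + 1) := by gcongr
          nlinarith
        calc κ * n * (2 * Real.log (2 * n) + h + Real.log (M + 1)) =
            n * (κ * (2 * Real.log (2 * n) + h + Real.log (M + 1))) := by ring
          _ < n * Real.log (M + 1) := by
              apply mul_lt_mul_of_pos_left h1
              linarith
    _ = (M + 1) ^ n := by
        rw [Real.exp_nat_mul, Real.exp_log (by linarith)]

end Num

theorem lam_nonneg {K : Type} [Field K] [NumberField K] (x : K) : 0 ≤ lam x :=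
  Finset.sum_nonneg fun _ _ => Real.log_nonneg (le_max_left _ _)

/-- AUX -/
theorem t_aux (hRS : S_RS) : S_AUX := by
  classical
  intro K _ _ x y hx hy A B T κ W hκ0 hκ hW hWi hWc
  obtain ⟨n, hn⟩ : ∃ n : ℕ, n = (A + 1) * (B + 1) := ⟨_, rfl⟩
  have hn1 : 1 ≤ (A + 1) * (B + 1) := Nat.succ_le_of_lt (by positivity)
  have hN0 : (0 : ℝ) < finrank ℚ K := by exact_mod_cast (finrank_pos (R := ℚ) (M := K))
  -- the vectors of coefficients
  have hli : LinearIndependent ℚ (fun P : W => fun i => coeff (mo A B i) (P : Pol ℚ)) := by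
    apply LinearIndependent.of_comp (bkl A B)
    have : (⇑(bkl A B) ∘ fun P : W => fun i => coeff (mo A B i) (P : Pol ℚ)) =
        fun P : W => (P : Pol ℚ) := by
      funext P
      exact bk_coeff (hW P.2).1
    rw [this]
    exact hWi
  have hcard : W.card ≤ (A + 1) * (B + 1) := by
    have := hli.fintype_card_le_finrank
    simpa using this
  obtain ⟨R, hR⟩ : ∃ R : ℕ, R = (A + 1) * (B + 1) - W.card := ⟨_, rfl⟩
  have hRn : R ≤ (A + 1) * (B + 1) := by omega
  have hWR : W.card = (A + 1) * (B + 1) - R := by omega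
  have hRr : (R : ℝ) ≤ κ * (((A + 1) * (B + 1) : ℕ) : ℝ) := by
    have h1 : (R : ℝ) = (((A + 1) * (B + 1) : ℕ) : ℝ) - W.card := by
      rw [hR, Nat.cast_sub hcard]
    rw [h1]
    push_cast
    linarith
  let eW := W.equivFinOfCardEq hWR
  -- the data of the heights
  let h : ℝ := T * Real.log (A + B + 1) + (A * lam x + B * lam y) / finrank ℚ K
  have hAB1 : (1 : ℝ) ≤ (A : ℝ) + B + 1 := by
    have h1 : (0 : ℝ) ≤ A := by positivity
    have h2 : (0 : ℝ) ≤ B := by positivity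
    linarith
  have hlAB : 0 ≤ Real.log ((A : ℝ) + B + 1) := Real.log_nonneg hAB1
  have hlx := lam_nonneg x
  have hly := lam_nonneg y
  have hh0 : 0 ≤ h := by
    show 0 ≤ T * Real.log (A + B + 1) + (A * lam x + B * lam y) / finrank ℚ K
    positivity
  obtain ⟨Z, hZ⟩ : ∃ Z : ℝ, Z = 2 * κ * (2 * Real.log (2 * (((A + 1) * (B + 1) : ℕ) : ℝ)) + h) :=
    ⟨_, rfl⟩
  have hn1' : (1 : ℝ) ≤ (((A + 1) * (B + 1) : ℕ) : ℝ) := by exact_mod_cast hn1
  have hZ0 : 0 ≤ Z := by
    have : 0 ≤ Real.log (2 * (((A + 1) * (B + 1) : ℕ) : ℝ)) := Real.log_nonneg (by linarith)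
    rw [hZ]
    positivity
  obtain ⟨M, hM⟩ : ∃ M : ℕ, M = ⌈Real.exp Z⌉₊ := ⟨_, rfl⟩
  have hMZ : Real.exp Z ≤ M := by rw [hM]; exact Nat.le_ceil _
  have hexp1 : 1 ≤ Real.exp Z := Real.one_le_exp hZ0
  have hM1 : 1 ≤ M := by
    have : (1 : ℝ) ≤ M := hexp1.trans hMZ
    exact_mod_cast this
  have hMlog : Real.log M ≤ Z + 1 := by
    rw [Real.log_le_iff_le_exp (by positivity)]
    have h1 : (M : ℝ) < Real.exp Z + 1 := by rw [hM]; exact Nat.ceil_lt_add_one (by positivity)
    have h2 : (2 : ℝ) ≤ Real.exp 1 := by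
      have := Real.add_one_le_exp (1 : ℝ)
      linarith
    rw [Real.exp_add]
    nlinarith [Real.exp_pos Z]
  have hnum := num hn1 hRn hRr hκ0 hκ hh0 hZ hMZ (by exact_mod_cast hM1)
  -- the bound for the conjugates
  let g : (K →ₐ[ℚ] ℂ) → ℝ := fun σ => ((A : ℝ) + B + 1) ^ T *
    ((max 1 ‖σ x‖) ^ A * (max 1 ‖σ y‖) ^ B)
  have hg1 : ∀ σ, 1 ≤ g σ := by
    intro σ
    have h1 : (1 : ℝ) ≤ ((A : ℝ) + B + 1) ^ T := one_le_pow₀ hAB1
    have h2 : (1 : ℝ) ≤ (max 1 ‖σ x‖) ^ A := one_le_pow₀ (le_max_left _ _)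
    have h3 : (1 : ℝ) ≤ (max 1 ‖σ y‖) ^ B := one_le_pow₀ (le_max_left _ _)
    exact one_le_mul_of_one_le_of_one_le h1 (one_le_mul_of_one_le_of_one_le h2 h3)
  obtain ⟨v, hv0, hv1, hv2⟩ := hRS K ((A + 1) * (B + 1)) R {p : ℕ × ℕ // p.1 + p.2 < T}
    (fun j i => aa A B x y j.1.1 j.1.2 i)
    (fun k i => coeff (mo A B i) ((eW.symm k : W) : Pol ℚ)) g h M hRn
    (by
      intro j i
      unfold aa
      exact (isIntegral_natCast _).mul ((hx.pow _).mul (hy.pow _)))
    (hli.comp _ eW.symm.injective)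
    (by
      intro k j
      have h1 := (hW (eW.symm k).2).2 j.1.1 j.1.2 j.2
      rw [ev_D (hW (eW.symm k).2).1] at h1
      exact h1)
    hg1
    (by
      intro σ j i
      unfold aa
      rw [map_mul, map_mul, map_pow, map_pow, map_natCast, norm_mul, norm_mul, norm_pow,
        norm_pow, Complex.norm_natCast]
      obtain ⟨hi0, hi1⟩ := mo_le A B i
      have hc : (((mo A B i 0).choose j.1.1 * (mo A B i 1).choose j.1.2 : ℕ) : ℝ) ≤
          ((A : ℝ) + B + 1) ^ T := by
        have h1 : (mo A B i 0).choose j.1.1 ≤ (A + B + 1) ^ j.1.1 :=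
          (Nat.choose_le_pow _ _).trans (Nat.pow_le_pow_left (by omega) _)
        have h2 : (mo A B i 1).choose j.1.2 ≤ (A + B + 1) ^ j.1.2 :=
          (Nat.choose_le_pow _ _).trans (Nat.pow_le_pow_left (by omega) _)
        have h3 : (mo A B i 0).choose j.1.1 * (mo A B i 1).choose j.1.2 ≤ (A + B + 1) ^ T := by
          calc _ ≤ (A + B + 1) ^ j.1.1 * (A + B + 1) ^ j.1.2 := Nat.mul_le_mul h1 h2
            _ = (A + B + 1) ^ (j.1.1 + j.1.2) := (pow_add _ _ _).symm
            _ ≤ (A + B + 1) ^ T := Nat.pow_le_pow_right (by omega) j.2.le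
        exact_mod_cast h3
      have hpow : ∀ (z : ℂ) (k N : ℕ), k ≤ N → ‖z‖ ^ k ≤ (max 1 ‖z‖) ^ N := by
        intro z k N hk
        calc ‖z‖ ^ k ≤ (max 1 ‖z‖) ^ k := by
              gcongr
              exact le_max_right _ _
          _ ≤ (max 1 ‖z‖) ^ N := pow_le_pow_right₀ (le_max_left _ _) hk
      show _ ≤ ((A : ℝ) + B + 1) ^ T * ((max 1 ‖σ x‖) ^ A * (max 1 ‖σ y‖) ^ B)
      have h4 := hpow (σ x) (mo A B i 0 - j.1.1) A (by omega)
      have h5 := hpow (σ y) (mo A B i 1 - j.1.2) B (by omega)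
      gcongr)
    (by
      have hcardK : Fintype.card (K →ₐ[ℚ] ℂ) = finrank ℚ K := AlgHom.card ℚ K ℂ
      have h1 : ∀ σ : K →ₐ[ℚ] ℂ, Real.log (g σ) = T * Real.log (A + B + 1) +
          (A * Real.log (max 1 ‖σ x‖) + B * Real.log (max 1 ‖σ y‖)) := by
        intro σ
        have p1 : (0 : ℝ) < ((A : ℝ) + B + 1) ^ T := by positivity
        have p2 : (0 : ℝ) < (max 1 ‖σ x‖) ^ A := by positivity
        have p3 : (0 : ℝ) < (max 1 ‖σ y‖) ^ B := by positivity
        show Real.log (((A : ℝ) + B + 1) ^ T * ((max 1 ‖σ x‖) ^ A * (max 1 ‖σ y‖) ^ B)) = _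
        rw [Real.log_mul p1.ne' (mul_pos p2 p3).ne', Real.log_mul p2.ne' p3.ne', Real.log_pow,
          Real.log_pow, Real.log_pow]
      rw [Finset.sum_congr rfl fun σ _ => h1 σ, Finset.sum_add_distrib, Finset.sum_const,
        Finset.card_univ, hcardK, nsmul_eq_mul, Finset.sum_add_distrib,
        ← Finset.mul_sum, ← Finset.mul_sum]
      show _ ≤ (finrank ℚ K : ℝ) *
        (T * Real.log (A + B + 1) + (A * lam x + B * lam y) / finrank ℚ K)
      rw [mul_add, mul_div_cancel₀ _ hN0.ne']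
      rfl)
    hM1
    (by exact_mod_cast hnum)
  refine ⟨bk A B v, M, ?_, bd_bk A B v, ?_, hM1, ?_, ?_⟩
  · intro h0
    apply hv0
    funext i
    rw [← coeff_bk A B v i, h0, coeff_zero, Pi.zero_apply]
  · intro a b hab
    rw [ev_D (bd_bk A B v)]
    have h1 := hv1 ⟨(a, b), hab⟩
    rw [← h1]
    exact Finset.sum_congr rfl fun i _ => by rw [coeff_bk]
  · intro m
    by_cases hm : ∃ i, mo A B i = m
    · obtain ⟨i, rfl⟩ := hm
      rw [coeff_bk]
      exact hv2 i
    · push Not at hm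
      rw [coeff_bk' A B v hm, abs_zero]
      positivity
  · refine hMlog.trans (le_of_eq ?_)
    rw [hZ]
    unfold Lam
    show 2 * κ * (2 * Real.log (2 * (((A + 1) * (B + 1) : ℕ) : ℝ)) +
      (T * Real.log (A + B + 1) + (A * lam x + B * lam y) / finrank ℚ K)) + 1 = _
    push_cast
    rw [mul_assoc 2 ((A : ℝ) + 1) ((B : ℝ) + 1)]
    ring

end Pool.Agent.N297.RT
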